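import Pool.Agent.H41.ET.Defs

set_option autoImplicit false

/-!
# E10 : the reservoir
-/

namespace Pool.Agent.H23.ET

open Pool.Agent.H41.ET

/-- representatives below `M` are counted by `ncard` -/
theorem card_le_ncard (M : ℕ) [NeZero M] (A : Set (ZMod M)) (T : Finset ℕ)
    (h : ∀ s ∈ T, s < M ∧ (s : ZMod M) ∈ A) : T.card ≤ A.ncard := by
  classical
  have hinj : Set.InjOn (fun s : ℕ => (s : ZMod M)) (T : Set ℕ) := by
    intro a ha b hb hab
    have h1 := congrArg ZMod.val hab
    simp only [ZMod.val_natCast] at h1
    rwa [Nat.mod_eq_of_lt (h a ha).1, Nat.mod_eq_of_lt (h b hb).1] at h1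
  have h2 : (T.image (fun s : ℕ => (s : ZMod M))).card = T.card :=
    Finset.card_image_of_injOn hinj
  rw [← h2, ← Set.ncard_coe_finset]
  refine Set.ncard_le_ncard ?_ (Set.toFinite _)
  intro x hx
  simp only [Finset.coe_image, Set.mem_image, Finset.mem_coe] at hx
  obtain ⟨s, hs, rfl⟩ := hx
  exact (h s hs).2

/-- E10 : the reservoir -/
theorem res : S_RES := by
  classical
  intro d q hd hq
  have : NeZero (2 * d - 1) := ⟨by omega⟩
  set M : ℕ := 2 * d - 1 with hM
  set L : ℕ := 2 * d / q with hL
  let S : Finset (ZMod M) := (Finset.range L).image (fun s : ℕ => (s : ZMod M)) ∪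
    (Finset.range ((M - 1) / q + 1)).image (fun k : ℕ => ((q * k : ℕ) : ZMod M))
  have mem1 : ∀ s : ℕ, s < L → (s : ZMod M) ∈ S := fun s hs =>
    Finset.mem_union_left _ (Finset.mem_image.2 ⟨s, Finset.mem_range.2 hs, rfl⟩)
  have mem2 : ∀ k : ℕ, k ≤ (M - 1) / q → ((q * k : ℕ) : ZMod M) ∈ S := fun k hk =>
    Finset.mem_union_right _ (Finset.mem_image.2 ⟨k, Finset.mem_range.2 (by omega), rfl⟩)
  refine ⟨S, ?_, fun u => ?_⟩
  · have h1 : S.card ≤ L + ((M - 1) / q + 1) := by
      refine (Finset.card_union_le _ _).trans ?_
      have a1 := Finset.card_image_le (s := Finset.range L) (f := fun s : ℕ => (s : ZMod M))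
      have a2 := Finset.card_image_le (s := Finset.range ((M - 1) / q + 1))
        (f := fun k : ℕ => ((q * k : ℕ) : ZMod M))
      simp only [Finset.card_range] at a1 a2
      omega
    have h2 : (M - 1) / q ≤ 2 * d / q := Nat.div_le_div_right (by omega)
    omega
  · have hu : u.val < M := ZMod.val_lt u
    have hcu : ((u.val : ℕ) : ZMod M) = u := ZMod.natCast_zmod_val u
    set a : ℕ := u.val with ha
    have hLq : 2 * d / q ^ 2 = L / q := by
      rw [hL, Nat.div_div_eq_div_mul, pow_two]
    rw [hLq]
    -- membership criterion
    have crit1 : ∀ s k : ℕ, s < L → a = s + q * k →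
        (s : ZMod M) ∈ {s | s ∈ S ∧ u - s ∈ S} := by
      intro s k hs hk
      refine ⟨mem1 s hs, ?_⟩
      have h1 : u - (s : ZMod M) = ((q * k : ℕ) : ZMod M) := by
        rw [← hcu, hk]; push_cast; ring
      rw [h1]
      refine mem2 k ?_
      rw [Nat.le_div_iff_mul_le (by omega)]
      have : k * q = q * k := mul_comm _ _
      omega
    have crit2 : ∀ s k : ℕ, s < L → a < s → M + a = s + q * k →
        (s : ZMod M) ∈ {s | s ∈ S ∧ u - s ∈ S} := by
      intro s k hs has hk
      refine ⟨mem1 s hs, ?_⟩
      have h1 : u - (s : ZMod M) = ((q * k : ℕ) : ZMod M) := by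
        have h2 : ((M + a : ℕ) : ZMod M) = ((s + q * k : ℕ) : ZMod M) := by rw [hk]
        push_cast at h2
        rw [ZMod.natCast_self, zero_add, hcu] at h2
        rw [h2]; push_cast; ring
      rw [h1]
      refine mem2 k ?_
      rw [Nat.le_div_iff_mul_le (by omega)]
      have : k * q = q * k := mul_comm _ _
      omega
    rcases Nat.lt_or_ge 1 q with hq2 | hq1
    · -- `q ≥ 2`
      have hLM : L ≤ M := by
        have h1 : L ≤ 2 * d / 2 := Nat.div_le_div_left hq2 (by norm_num)
        omega
      rcases Nat.lt_or_ge (a + 1) L with hB | hA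
      · -- two pieces
        let T1 : Finset ℕ := (Finset.range (a / q + 1)).image (fun j => a - q * j)
        let T2 : Finset ℕ := (Finset.range ((L - 1 - a) / q)).image
          (fun j => a + 1 + (M - 1) % q + q * j)
        have e1 : ∀ j, j < a / q + 1 → q * j ≤ a := by
          intro j hj
          have h1 : q * j ≤ q * (a / q) := Nat.mul_le_mul_left _ (by omega)
          exact h1.trans (Nat.mul_div_le a q)
        have e2 : ∀ j, j < (L - 1 - a) / q → a + 1 + (M - 1) % q + q * j < L := by
          intro j hj
          have h1 : q * (j + 1) ≤ q * ((L - 1 - a) / q) := Nat.mul_le_mul_left _ (by omega)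
          have h2 := Nat.mul_div_le (L - 1 - a) q
          have h3 := Nat.mod_lt (M - 1) (by omega : q > 0)
          rw [Nat.mul_add, Nat.mul_one] at h1
          omega
        have c1 : T1.card = a / q + 1 := by
          rw [Finset.card_image_of_injOn, Finset.card_range]
          intro i hi j hj hij
          have h1 := e1 i (Finset.mem_range.1 (Finset.mem_coe.1 hi))
          have h2 := e1 j (Finset.mem_range.1 (Finset.mem_coe.1 hj))
          simp only at hij
          have h3 : q * i = q * j := by omega
          exact Nat.eq_of_mul_eq_mul_left (by omega) h3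
        have c2 : T2.card = (L - 1 - a) / q := by
          rw [Finset.card_image_of_injOn, Finset.card_range]
          intro i hi j hj hij
          simp only at hij
          have h3 : q * i = q * j := by omega
          exact Nat.eq_of_mul_eq_mul_left (by omega) h3
        have hdisj : Disjoint T1 T2 := by
          rw [Finset.disjoint_left]
          intro x hx1 hx2
          obtain ⟨i, _, rfl⟩ := Finset.mem_image.1 hx1
          obtain ⟨j, _, hj⟩ := Finset.mem_image.1 hx2
          omega
        have hc := card_le_ncard M {s | s ∈ S ∧ u - s ∈ S} (T1 ∪ T2) (by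
          intro s hs
          rcases Finset.mem_union.1 hs with hs | hs
          · obtain ⟨j, hj, rfl⟩ := Finset.mem_image.1 hs
            have h1 := e1 j (Finset.mem_range.1 hj)
            refine ⟨by omega, crit1 _ j (by omega) (by omega)⟩
          · obtain ⟨j, hj, rfl⟩ := Finset.mem_image.1 hs
            have h1 := e2 j (Finset.mem_range.1 hj)
            refine ⟨by omega, crit2 _ ((M - 1) / q - j) h1 (by omega) ?_⟩
            have h2 := Nat.div_add_mod (M - 1) q
            have h3 : j ≤ (M - 1) / q := by
              rw [Nat.le_div_iff_mul_le (by omega)]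
              have : j * q = q * j := mul_comm _ _
              omega
            rw [Nat.mul_sub]
            have h4 : q * j ≤ q * ((M - 1) / q) := Nat.mul_le_mul_left _ h3
            omega)
        rw [Finset.card_union_of_disjoint hdisj, c1, c2] at hc
        -- arithmetic
        have h5 : L / q ≤ a / q + 1 + (L - 1 - a) / q + 1 := by
          have g1 := Nat.div_add_mod a q
          have g2 := Nat.div_add_mod (L - 1 - a) q
          have g3 := Nat.mod_lt a (by omega : q > 0)
          have g4 := Nat.mod_lt (L - 1 - a) (by omega : q > 0)
          have g5 : L < q * (a / q + 1 + (L - 1 - a) / q + 1 + 1) := by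
            have : q * (a / q + 1 + (L - 1 - a) / q + 1 + 1) =
              q * (a / q) + q * ((L - 1 - a) / q) + 3 * q := by ring
            omega
          have g6 : L / q < a / q + 1 + (L - 1 - a) / q + 1 + 1 :=
            Nat.div_lt_of_lt_mul g5
          omega
        omega
      · -- one piece
        let T : Finset ℕ := (Finset.range (L / q)).image (fun j => a % q + q * j)
        have e1 : ∀ j, j < L / q → a % q + q * j < L := by
          intro j hj
          have h1 : q * (j + 1) ≤ q * (L / q) := Nat.mul_le_mul_left _ (by omega)
          have h2 := Nat.mul_div_le L q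
          have h3 := Nat.mod_lt a (by omega : q > 0)
          rw [Nat.mul_add, Nat.mul_one] at h1
          omega
        have c1 : T.card = L / q := by
          rw [Finset.card_image_of_injOn, Finset.card_range]
          intro i hi j hj hij
          simp only at hij
          have h3 : q * i = q * j := by omega
          exact Nat.eq_of_mul_eq_mul_left (by omega) h3
        have hc := card_le_ncard M {s | s ∈ S ∧ u - s ∈ S} T (by
          intro s hs
          obtain ⟨j, hj, rfl⟩ := Finset.mem_image.1 hs
          have h1 := e1 j (Finset.mem_range.1 hj)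
          refine ⟨by omega, crit1 _ (a / q - j) h1 ?_⟩
          have h2 := Nat.div_add_mod a q
          have h3 : j ≤ a / q := by
            rw [Nat.le_div_iff_mul_le (by omega)]
            have : j * q = q * j := mul_comm _ _
            omega
          rw [Nat.mul_sub]
          have h4 : q * j ≤ q * (a / q) := Nat.mul_le_mul_left _ h3
          omega)
        rw [c1] at hc
        omega
    · -- `q = 1`
      have hq' : q = 1 := by omega
      subst hq'
      have hL' : L = 2 * d := by rw [hL, Nat.div_one]
      have hc := card_le_ncard M {s | s ∈ S ∧ u - s ∈ S} (Finset.range M) (by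
        intro s hs
        have hs' := Finset.mem_range.1 hs
        refine ⟨hs', ?_⟩
        rcases Nat.lt_or_ge a s with h | h
        · exact crit2 s (M + a - s) (by omega) h (by omega)
        · exact crit1 s (a - s) (by omega) (by omega))
      rw [Finset.card_range] at hc
      rw [Nat.div_one]
      omega

end Pool.Agent.H23.ET
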